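import Pool.Agent.Helper60.T3.GoalsI
import Pool.Agent.Helper24.SGB.LAWMAP
import Pool.Agent.Helper32.SGT.NZV
import Pool.Agent.Helper30.SGT.NZ1

/-!
# Project T3, packet TORS: `x(P)` has degree at least `4 ^ e` over `κ (x (2 ^ e P - c))`
-/

set_option autoImplicit false

open MvPolynomial

namespace Pool.Agent.Helper91.T3.TORS

open WeierstrassCurve
open Pool.Agent.Helper29.BL Pool.Agent.Helper92.Ru Pool.Agent.Helper42.SG
open Pool.Agent.Helper60.T3
open Pool.Agent.Helper24.SGB Pool.Agent.Helper32.SGT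

noncomputable section

section rep

variable {κ L : Type} [Field κ] [Field L] [Algebra κ L]

/-- functions of the form `p(x) + y r(x)` on the curve `y² = B(x)`, `p`, `r` over `κ` -/
def Rk (V : Affine κ) (f : L → L → L) : Prop :=
  ∃ p r : Polynomial κ, ∀ x y, y ^ 2 = Polynomial.aeval x (Bp V) →
    f x y = Polynomial.aeval x p + y * Polynomial.aeval x r

variable {V : Affine κ}

lemma rk_poly (p : Polynomial κ) : Rk V (fun x _ : L => Polynomial.aeval x p) :=
  ⟨p, 0, fun x y _ => by simp⟩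

lemma rk_const (c : κ) : Rk V (fun _ _ : L => algebraMap κ L c) :=
  ⟨Polynomial.C c, 0, fun x y _ => by simp⟩

lemma rk_x : Rk V (fun x _ : L => x) :=
  ⟨Polynomial.X, 0, fun x y _ => by simp⟩

lemma rk_y : Rk V (fun _ y : L => y) :=
  ⟨0, 1, fun x y _ => by simp⟩

lemma rk_add {f g : L → L → L} (hf : Rk V f) (hg : Rk V g) :
    Rk V (fun x y => f x y + g x y) := by
  obtain ⟨p, r, h⟩ := hf
  obtain ⟨p', r', h'⟩ := hg
  refine ⟨p + p', r + r', fun x y hxy => ?_⟩
  beta_reduce
  rw [h x y hxy, h' x y hxy, map_add, map_add]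
  ring

lemma rk_mul {f g : L → L → L} (hf : Rk V f) (hg : Rk V g) :
    Rk V (fun x y => f x y * g x y) := by
  obtain ⟨p, r, h⟩ := hf
  obtain ⟨p', r', h'⟩ := hg
  refine ⟨p * p' + Bp V * (r * r'), p * r' + p' * r, fun x y hxy => ?_⟩
  beta_reduce
  rw [h x y hxy, h' x y hxy]
  simp only [map_add, map_mul]
  rw [← hxy]
  ring

lemma rk_pow {f : L → L → L} (hf : Rk V f) (n : ℕ) : Rk V (fun x y => f x y ^ n) := by
  induction n with
  | zero =>
    have := rk_const (L := L) (V := V) 1
    simpa only [pow_zero, map_one] using this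
  | succ n ih =>
    have := rk_mul ih hf
    simpa only [pow_succ] using this

lemma rk_sum {ι : Type} (s : Finset ι) {f : ι → L → L → L} (hf : ∀ i, Rk V (f i)) :
    Rk V (fun x y => ∑ i ∈ s, f i x y) := by
  classical
  induction s using Finset.induction_on with
  | empty =>
    have := rk_const (L := L) (V := V) 0
    simpa only [Finset.sum_empty, map_zero] using this
  | insert a s ha ih =>
    have := rk_add (hf a) ih
    simpa only [Finset.sum_insert ha] using this

lemma aeval_two (x : L) : Polynomial.aeval x (2 : Polynomial κ) = 2 := map_ofNat _ 2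

lemma aeval_Bp (x : L) : Polynomial.aeval x (Bp V) = Bf (WeierstrassCurve.map V (algebraMap κ L)) x := by
  unfold Bp Bf
  simp only [map_add, map_mul, map_pow, Polynomial.aeval_C, Polynomial.aeval_X, map_ofNat,
    WeierstrassCurve.map_b₂, WeierstrassCurve.map_b₄, WeierstrassCurve.map_b₆]

/-- `V` as a curve over `κ[X]`, mapped to `L` -/
lemma map_C_aeval (x : L) : WeierstrassCurve.map (WeierstrassCurve.map V (Polynomial.C : κ →+* Polynomial κ))
    ((Polynomial.aeval x : Polynomial κ →ₐ[κ] L) : Polynomial κ →+* L) =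
      WeierstrassCurve.map V (algebraMap κ L) := by
  rw [WeierstrassCurve.map_map]
  congr 1
  ext c
  simp

lemma Ph_aeval (e : ℕ) (x : L) : Ph (WeierstrassCurve.map V (algebraMap κ L)) e x =
    (Polynomial.aeval x (Ph (WeierstrassCurve.map V (Polynomial.C : κ →+* Polynomial κ)) e Polynomial.X).1,
      Polynomial.aeval x (Ph (WeierstrassCurve.map V (Polynomial.C : κ →+* Polynomial κ)) e Polynomial.X).2) := by
  have h := Ph_map ((Polynomial.aeval x : Polynomial κ →ₐ[κ] L) : Polynomial κ →+* L)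
    (WeierstrassCurve.map V (Polynomial.C : κ →+* Polynomial κ)) e Polynomial.X
  rw [map_C_aeval] at h
  simpa using h

lemma Rr_aeval (e : ℕ) (x : L) : Rr (WeierstrassCurve.map V (algebraMap κ L)) e x =
    Polynomial.aeval x (Rr (WeierstrassCurve.map V (Polynomial.C : κ →+* Polynomial κ)) e Polynomial.X) := by
  have h := Rr_map ((Polynomial.aeval x : Polynomial κ →ₐ[κ] L) : Polynomial κ →+* L)
    (WeierstrassCurve.map V (Polynomial.C : κ →+* Polynomial κ)) e Polynomial.X
  rw [map_C_aeval] at h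
  simpa using h

lemma rk_law (e : ℕ) (c d : κ) :
    Rk V (fun x y : L => (law (WeierstrassCurve.map V (algebraMap κ L)) e false x (algebraMap κ L c)
      (y * algebraMap κ L d)).1) ∧
    Rk V (fun x y : L => (law (WeierstrassCurve.map V (algebraMap κ L)) e false x (algebraMap κ L c)
      (y * algebraMap κ L d)).2) := by
  constructor
  · refine ⟨2 * Uh (Polynomial.C c) (Ph (WeierstrassCurve.map V (Polynomial.C : κ →+* Polynomial κ)) e
      Polynomial.X).1 (Ph (WeierstrassCurve.map V (Polynomial.C : κ →+* Polynomial κ)) e Polynomial.X).2, 0,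
      fun x y _ => ?_⟩
    show 2 * Uh (algebraMap κ L c) (Ph (WeierstrassCurve.map V (algebraMap κ L)) e x).1
      (Ph (WeierstrassCurve.map V (algebraMap κ L)) e x).2 = _
    rw [Ph_aeval]
    simp only [Uh, map_mul, map_pow, map_sub, aeval_two, Polynomial.aeval_C, map_zero, mul_zero,
      add_zero]
  · refine ⟨Th (WeierstrassCurve.map V (Polynomial.C : κ →+* Polynomial κ)) (Polynomial.C c)
      (Ph (WeierstrassCurve.map V (Polynomial.C : κ →+* Polynomial κ)) e Polynomial.X).1
      (Ph (WeierstrassCurve.map V (Polynomial.C : κ →+* Polynomial κ)) e Polynomial.X).2,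
      Polynomial.C d * Rr (WeierstrassCurve.map V (Polynomial.C : κ →+* Polynomial κ)) e Polynomial.X,
      fun x y _ => ?_⟩
    show Th (WeierstrassCurve.map V (algebraMap κ L)) (algebraMap κ L c) (Ph (WeierstrassCurve.map V (algebraMap κ L)) e x).1
      (Ph (WeierstrassCurve.map V (algebraMap κ L)) e x).2 + (y * algebraMap κ L d) *
        Rr (WeierstrassCurve.map V (algebraMap κ L)) e x = _
    rw [Ph_aeval, Rr_aeval]
    simp only [Th, map_mul, Polynomial.aeval_C, map_add, map_pow, map_ofNat,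
      WeierstrassCurve.map_b₂, WeierstrassCurve.map_b₄, WeierstrassCurve.map_b₆]
    ring

/-- transfer of a relation `R (u, x) = 0` from one point to another -/
lemma transfer [CharZero κ] {f1 f2 : L → L → L} (h1 : Rk V f1) (h2 : Rk V f2) {u x y x' y' : L}
    (hx : Transcendental κ x) (hy : y ^ 2 = Polynomial.aeval x (Bp V))
    (hy' : y' ^ 2 = Polynomial.aeval x' (Bp V)) (e2 : f2 x y = u * f1 x y)
    (e1' : f1 x' y' ≠ 0) (e2' : f2 x' y' = u * f1 x' y') (R : MvPolynomial (Fin 2) κ)
    (h0 : aeval ![u, x] R = 0) : aeval ![u, x'] R = 0 := by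
  classical
  set N := R.degreeOf 0 with hN
  have hrep : Rk V (fun x y : L => ∑ m ∈ R.support, algebraMap κ L (coeff m R) *
      (f1 x y ^ (N - m 0) * f2 x y ^ (m 0) * x ^ (m 1))) := by
    apply rk_sum
    intro m
    exact rk_mul (rk_const _) (rk_mul (rk_mul (rk_pow h1 _) (rk_pow h2 _)) (rk_pow rk_x _))
  have hval : ∀ a b : L, f2 a b = u * f1 a b →
      ∑ m ∈ R.support, algebraMap κ L (coeff m R) *
      (f1 a b ^ (N - m 0) * f2 a b ^ (m 0) * a ^ (m 1)) = f1 a b ^ N * aeval ![u, a] R := by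
    intro a b hab
    rw [aeval_def, eval₂_eq', Finset.mul_sum]
    refine Finset.sum_congr rfl (fun m hm => ?_)
    have hle : m 0 ≤ N := monomial_le_degreeOf 0 hm
    rw [Fin.prod_univ_two]
    simp only [Matrix.cons_val_zero, Matrix.cons_val_one]
    rw [hab, mul_pow]
    have : f1 a b ^ N = f1 a b ^ (N - m 0) * f1 a b ^ (m 0) := by
      rw [← pow_add]; congr 1; omega
    rw [this]
    ring
  obtain ⟨p, r, hpr⟩ := hrep
  have hA := hpr x y hy
  beta_reduce at hA
  rw [hval x y e2, h0, mul_zero] at hA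
  have hz : Polynomial.aeval x (p ^ 2 - Bp V * r ^ 2) = 0 := by
    rw [map_sub, map_mul, map_pow, map_pow, ← hy]
    linear_combination -(Polynomial.aeval x p - y * Polynomial.aeval x r) * hA
  have hpoly : p ^ 2 - Bp V * r ^ 2 = 0 := by
    by_contra hne
    exact hx ⟨_, hne, hz⟩
  obtain ⟨hp, hr⟩ := norm_zero_imp hpoly
  have hB := hpr x' y' hy'
  beta_reduce at hB
  rw [hval x' y' e2', hp, hr, map_zero, mul_zero, add_zero] at hB
  rcases mul_eq_zero.1 hB with h | h
  · exact absurd (eq_zero_of_pow_eq_zero h) e1'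
  · exact h

/-- the polynomial `R(u, X)` -/
lemma exists_G {u : L} (hu : Transcendental κ u) (R : MvPolynomial (Fin 2) κ) (hR : R ≠ 0) :
    ∃ G : Polynomial L, G ≠ 0 ∧ G.natDegree ≤ R.degreeOf 1 ∧
      ∀ x : L, G.eval x = aeval ![u, x] R := by
  classical
  refine ⟨∑ m ∈ R.support, Polynomial.monomial (m 1) (algebraMap κ L (coeff m R) * u ^ (m 0)),
    ?_, ?_, ?_⟩
  · obtain ⟨m0, hm0⟩ := MvPolynomial.ne_zero_iff.1 hR
    intro hcon
    have h1 := congrArg (fun s => Polynomial.coeff s (m0 1)) hcon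
    simp only [Polynomial.finsetSum_coeff, Polynomial.coeff_monomial, Polynomial.coeff_zero] at h1
    set q : Polynomial κ := ∑ m ∈ R.support,
      if m 1 = m0 1 then Polynomial.monomial (m 0) (coeff m R) else 0 with hq
    have hqe : Polynomial.aeval u q = 0 := by
      rw [hq, map_sum, ← h1]
      refine Finset.sum_congr rfl (fun m _ => ?_)
      split_ifs with h
      · rw [Polynomial.aeval_monomial]
      · rw [map_zero]
    have hq0 : q = 0 := by
      by_contra hne
      exact hu ⟨q, hne, hqe⟩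
    have h2 := congrArg (fun s => Polynomial.coeff s (m0 0)) hq0
    simp only [hq, Polynomial.finsetSum_coeff, Polynomial.coeff_zero] at h2
    rw [Finset.sum_eq_single m0] at h2
    · rw [if_pos rfl, Polynomial.coeff_monomial, if_pos rfl] at h2
      exact hm0 h2
    · intro m _ hmm
      split_ifs with h
      · rw [Polynomial.coeff_monomial, if_neg]
        intro h'
        apply hmm
        ext i
        fin_cases i
        · exact h'
        · exact h
      · exact Polynomial.coeff_zero _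
    · intro h
      exact absurd (MvPolynomial.mem_support_iff.2 hm0) h
  · refine Polynomial.natDegree_sum_le_of_forall_le _ _ (fun m hm => ?_)
    exact (Polynomial.natDegree_monomial_le _).trans (monomial_le_degreeOf 1 hm)
  · intro x
    rw [Polynomial.eval_finsetSum, aeval_def, eval₂_eq']
    refine Finset.sum_congr rfl (fun m _ => ?_)
    rw [Fin.prod_univ_two, Polynomial.eval_monomial]
    simp only [Matrix.cons_val_zero, Matrix.cons_val_one]
    ring

end rep

section main

variable {κ L : Type} [Field κ] [Field L] [Algebra κ L]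

lemma mem_of_algebraic [IsAlgClosed κ] {z : L} (h : IsAlgebraic κ z) :
    z ∈ Set.range (algebraMap κ L) := by
  have h1 := h.isIntegral
  have h2 := IsAlgClosed.degree_eq_one_of_irreducible κ (minpoly.irreducible h1)
  exact minpoly.mem_range_of_degree_eq_one κ z h2

lemma mem_of_sq [IsAlgClosed κ] {z : L} (h : z ^ 2 ∈ Set.range (algebraMap κ L)) :
    z ∈ Set.range (algebraMap κ L) := by
  obtain ⟨a, ha⟩ := h
  obtain ⟨b, hb⟩ := IsAlgClosed.exists_pow_nat_eq a (n := 2) (by norm_num)
  have h1 : z ^ 2 = (algebraMap κ L b) ^ 2 := by rw [← map_pow, hb, ha]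
  rcases sq_eq_sq_iff_eq_or_eq_neg.1 h1 with h2 | h2
  · exact ⟨b, h2.symm⟩
  · exact ⟨-b, by rw [map_neg, h2]⟩

variable [IsAlgClosed κ] [CharZero κ] [IsAlgClosed L] [CharZero L] [DecidableEq L]

lemma two_P (hED : EDUP) (V : Affine κ) (U : Affine L) [U.IsElliptic]
    (hU : U = WeierstrassCurve.map V (algebraMap κ L)) (P : U.Point) (hP : P ≠ 0)
    (hx : Transcendental κ (xc P)) : 2 • P ≠ 0 := by
  intro h
  have h1 := (hED L U P 1 hP).2.1.2 (by simpa using h)
  have h2 : (Ph U 1 (xc P)).2 = Bf U (xc P) := by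
    simp only [Ph, Bh, Bf]
    ring
  have h3 : Bf U (xc P) = Polynomial.aeval (xc P) (Bp V) := by
    subst hU
    exact (aeval_Bp _).symm
  rw [h2, h3] at h1
  exact hx ⟨Bp V, Bp_ne, h1⟩

lemma not_IP (hNZ : NZ1) (hED : EDUP) (V : Affine κ) (U : Affine L) [U.IsElliptic]
    (hU : U = WeierstrassCurve.map V (algebraMap κ L)) (P : U.Point) (hP : P ≠ 0)
    (hx : Transcendental κ (xc P)) (e : ℕ) :
    ¬ IP (Set.range (algebraMap κ L)) ((2 ^ e) • P) := by
  obtain ⟨Φ, hΦ⟩ : ∃ Φ, Φ = (Ph (WeierstrassCurve.map V (Polynomial.C : κ →+* Polynomial κ)) e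
    Polynomial.X).1 := ⟨_, rfl⟩
  obtain ⟨Ψ, hΨ⟩ : ∃ Ψ, Ψ = (Ph (WeierstrassCurve.map V (Polynomial.C : κ →+* Polynomial κ)) e
    Polynomial.X).2 := ⟨_, rfl⟩
  obtain ⟨dm, dd, dl⟩ := Pool.Agent.Helper30.SGT.deg_Ph V e
  rw [← hΦ] at dd
  rw [← hΨ] at dl
  have hPh : ∀ x : L, Ph U e x = (Polynomial.aeval x Φ, Polynomial.aeval x Ψ) := by
    intro x
    subst hU
    rw [hΦ, hΨ]
    exact Ph_aeval e x
  have hΨ0 : Ψ ≠ 0 := by
    obtain ⟨P1, hP1, he1, -⟩ := hNZ L U P e 1 (two_P hED V U hU P hP hx) one_ne_zero (by simp)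
    intro h
    have h1 := (hED L U P1 e hP1).2.1.1 (by rw [hPh, h]; simp)
    rw [he1] at h1
    exact hP h1
  intro h
  have hne : (2 ^ e) • P ≠ 0 := by
    intro h1
    have h2 := (hED L U P e hP).2.1.2 h1
    rw [hPh] at h2
    exact hx ⟨Ψ, hΨ0, h2⟩
  rcases h with h | ⟨⟨t, ht⟩, -⟩
  · exact hne h
  · have h2 := (hED L U P e hP).2.2.1 hne
    rw [hPh, ← ht] at h2
    have h3 : Polynomial.aeval (xc P) (Φ - Polynomial.C t * Ψ) = 0 := by
      rw [map_sub, map_mul, Polynomial.aeval_C]
      exact sub_eq_zero.2 h2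
    have h4 : Φ - Polynomial.C t * Ψ ≠ 0 := by
      intro h5
      have h7 := congrArg Polynomial.natDegree (sub_eq_zero.1 h5)
      rw [dd] at h7
      have := Polynomial.natDegree_C_mul_le t Ψ
      omega
    exact hx ⟨_, h4, h3⟩

theorem core (hNZ : NZ1) (hED : EDUP) (hEL : ELAW) (V : Affine κ) (U : Affine L) [U.IsElliptic]
    (hU : U = WeierstrassCurve.map V (algebraMap κ L))
    (hadd : ∀ A B : U.Point, IP (Set.range (algebraMap κ L)) A →
      IP (Set.range (algebraMap κ L)) B →
      IP (Set.range (algebraMap κ L)) (A + B) ∧ IP (Set.range (algebraMap κ L)) (-A))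
    (e : ℕ) (P c : U.Point) (hP : P ≠ 0) (hx : Transcendental κ (xc P))
    (hc : IP (Set.range (algebraMap κ L)) c) (R : MvPolynomial (Fin 2) κ) (hR : R ≠ 0)
    (h0 : aeval ![xc ((2 ^ e) • P - c), xc P] R = 0) : 4 ^ e ≤ R.degreeOf 1 := by
  have hnot := not_IP hNZ hED V U hU P hP hx
  have hPh : ∀ x : L, Ph U e x =
      (Polynomial.aeval x (Ph (WeierstrassCurve.map V (Polynomial.C : κ →+* Polynomial κ)) e
        Polynomial.X).1, Polynomial.aeval x (Ph (WeierstrassCurve.map V
        (Polynomial.C : κ →+* Polynomial κ)) e Polynomial.X).2) := by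
    intro x
    subst hU
    exact Ph_aeval e x
  have hBp : ∀ x : L, Bf U x = Polynomial.aeval x (Bp V) := by
    intro x
    subst hU
    exact (aeval_Bp x).symm
  have hps : ∀ A : U.Point, A ≠ 0 → ps A ^ 2 = Polynomial.aeval (xc A) (Bp V) := by
    intro A hA
    rw [← hBp]
    exact ps_sq A hA
  obtain ⟨w, hw⟩ : ∃ w, w = (2 ^ e) • P - c := ⟨_, rfl⟩
  rw [← hw] at h0
  have hwn : ¬ IP (Set.range (algebraMap κ L)) w := by
    intro h
    apply hnot e
    have := (hadd w c h hc).1
    rwa [hw, sub_add_cancel] at this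
  have hw0 : w ≠ 0 := fun h => hwn (Or.inl h)
  have hwp : (2 ^ e) • P + c ≠ 0 := by
    intro h
    apply hnot e
    rw [eq_neg_of_add_eq_zero_left h]
    exact (hadd c c hc hc).2
  have hu : Transcendental κ (xc w) := by
    intro halg
    obtain ⟨u0, hu0⟩ := mem_of_algebraic halg
    apply hwn
    refine Or.inr ⟨⟨u0, hu0⟩, mem_of_sq ?_⟩
    rw [hps w hw0, ← hu0]
    exact ⟨Polynomial.eval u0 (Bp V), by
      rw [Polynomial.aeval_algebraMap_apply, Polynomial.coe_aeval_eq_eval]⟩
  by_contra hcon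
  push Not at hcon
  obtain ⟨G, hG0, hGd, hGe⟩ := exists_G hu R hR
  have hV2 : 2 • ((2 ^ e) • P) ≠ 0 := by
    intro h
    apply hnot (e + 1)
    left
    rw [pow_succ', mul_smul]
    exact h
  have hV0 : (2 ^ e) • P ≠ 0 := fun h => hnot e (Or.inl h)
  obtain ⟨P', hP', heq, hG'⟩ := hNZ L U ((2 ^ e) • P) e G hV2 hG0 (lt_of_le_of_lt hGd hcon)
  rw [hGe] at hG'
  apply hG'
  by_cases hc0 : c = 0
  · have hwe : w = (2 ^ e) • P := by rw [hw, hc0, sub_zero]
    rw [hwe] at h0 ⊢
    refine transfer (V := V) (rk_poly (Ph (WeierstrassCurve.map V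
      (Polynomial.C : κ →+* Polynomial κ)) e Polynomial.X).2) (rk_poly (Ph (WeierstrassCurve.map V
      (Polynomial.C : κ →+* Polynomial κ)) e Polynomial.X).1) (y := ps P) (y' := ps P') hx
      (hps P hP) (hps P' hP') ?_ ?_ ?_ R h0
    · have h1 := (hED L U P e hP).2.2.1 hV0
      rw [hPh] at h1
      exact h1
    · have h1 : (Ph U e (xc P')).2 ≠ 0 := by
        intro h
        have h2 := (hED L U P' e hP').2.1.1 h
        rw [heq] at h2
        exact hV0 h2
      rw [hPh] at h1
      exact h1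
    · have h1 := (hED L U P' e hP').2.2.1 (by rw [heq]; exact hV0)
      rw [hPh, heq] at h1
      exact h1
  · rcases hc with h | ⟨⟨c0, hc0'⟩, ⟨d0, hd0⟩⟩
    · exact absurd h hc0
    · have hlaw := rk_law (L := L) (V := V) e c0 d0
      rw [← hU, hc0', hd0] at hlaw
      refine transfer hlaw.1 hlaw.2 (y := ps P) (y' := ps P') hx (hps P hP) (hps P' hP') ?_ ?_ ?_
        R h0
      · rw [hw]
        exact ((hEL L U P c e two_ne_zero hP hc0 hwp).2.1 (by rw [← hw]; exact hw0)).2
      · have h1 := ((hEL L U P' c e two_ne_zero hP' hc0 (by rw [heq]; exact hwp)).2.1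
          (by rw [heq, ← hw]; exact hw0)).1
        exact h1
      · have h1 := ((hEL L U P' c e two_ne_zero hP' hc0 (by rw [heq]; exact hwp)).2.1
          (by rw [heq, ← hw]; exact hw0)).2
        rw [heq, ← hw] at h1
        exact h1

end main

/-- **TORS**. -/
theorem t (hS : S_SUBF) (hNZ : NZ1) (hED : EDUP) (hEL : ELAW) : S_TORS := by
  intro k κ L _ _ _ _ _ _ _ _ _ _ _ W _ e P c hP hx hc R hR h0
  haveI : CharZero κ := charZero_of_injective_algebraMap (algebraMap k κ).injective
  haveI : CharZero L := charZero_of_injective_algebraMap (algebraMap k L).injective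
  have hU : WL L W = WeierstrassCurve.map (WeierstrassCurve.map W (algebraMap k κ))
      (algebraMap κ L) := by
    rw [WeierstrassCurve.map_map, ← IsScalarTower.algebraMap_eq]
  have hF : ((IsScalarTower.toAlgHom k κ L).fieldRange : Set L) =
      Set.range (algebraMap κ L) := by
    rw [AlgHom.coe_fieldRange]
    rfl
  refine core hNZ hED hEL (WeierstrassCurve.map W (algebraMap k κ)) (WL L W) hU ?_ e P c hP hx hc
    R hR h0
  intro A B hA hB
  rw [← hF] at hA hB ⊢
  obtain ⟨h1, -, h3, -⟩ := hS k L W (IsScalarTower.toAlgHom k κ L).fieldRange A B hA hB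
  exact ⟨h1, h3⟩

end

end Pool.Agent.Helper91.T3.TORS
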